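import Pool.Agent.Lib.MP_21a058_co.P.Defs

/-! Near-minimum cuts of a graph with many disjoint connected spanning classes are a bounded
number of laminar families (MP_21a058_co). -/

namespace Pool.Agent.Lib.MP_21a058_co.Near

open Finset
open Pool.Agent.Lib.MP_21a058_co.P

section
variable {V E : Type*} [Fintype V] [DecidableEq V] [Fintype E] [DecidableEq E] (a b : E → V)

theorem card_inter_cut (R : Finset E) (X : Finset V) :
    (R ∩ cut a b X).card = ∑ e ∈ R, if ¬ (a e ∈ X ↔ b e ∈ X) then 1 else 0 := by
  rw [← Finset.card_filter]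
  congr 1
  ext e
  simp [mem_cut]

theorem submod (R : Finset E) (X Y : Finset V) :
    (R ∩ cut a b (X ∩ Y)).card + (R ∩ cut a b (X ∪ Y)).card ≤
      (R ∩ cut a b X).card + (R ∩ cut a b Y).card := by
  rw [card_inter_cut, card_inter_cut, card_inter_cut, card_inter_cut,
    ← Finset.sum_add_distrib, ← Finset.sum_add_distrib]
  apply Finset.sum_le_sum
  intro e _
  by_cases h1 : a e ∈ X <;> by_cases h2 : a e ∈ Y <;> by_cases h3 : b e ∈ X <;>
    by_cases h4 : b e ∈ Y <;> simp [h1, h2, h3, h4]

theorem posimod (R : Finset E) (X Y : Finset V) :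
    (R ∩ cut a b (X \ Y)).card + (R ∩ cut a b (Y \ X)).card ≤
      (R ∩ cut a b X).card + (R ∩ cut a b Y).card := by
  rw [card_inter_cut, card_inter_cut, card_inter_cut, card_inter_cut,
    ← Finset.sum_add_distrib, ← Finset.sum_add_distrib]
  apply Finset.sum_le_sum
  intro e _
  by_cases h1 : a e ∈ X <;> by_cases h2 : a e ∈ Y <;> by_cases h3 : b e ∈ X <;>
    by_cases h4 : b e ∈ Y <;> simp [h1, h2, h3, h4]

/-- Edges of `F` between different colours. -/
def crs {ι : Type*} [DecidableEq ι] (F : Finset E) (g : V → ι) : Finset E :=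
  F.filter fun e => g (a e) ≠ g (b e)

/-- A connected class has at least `p - 1` edges between `p` colours. -/
theorem conn_crs {ι : Type*} [DecidableEq ι] {F : Finset E} (h : ConnOn a b F univ) :
    ∀ (n : ℕ) (g : V → ι), (univ.image g).card = n → n ≤ (crs a b F g).card + 1 := by
  intro n
  induction n with
  | zero => intro g _; omega
  | succ n ih =>
    intro g hg
    rcases Nat.eq_zero_or_pos n with hn | hn
    · omega
    · have hne : (univ.image g).Nonempty := Finset.card_pos.mp (by omega)
      obtain ⟨i, hi⟩ := hne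
      obtain ⟨v, -, hv⟩ := Finset.mem_image.mp hi
      obtain ⟨j, hj, hij⟩ : ∃ j ∈ univ.image g, j ≠ i := by
        have : 1 < (univ.image g).card := by omega
        obtain ⟨j, hj, hji⟩ := Finset.exists_mem_ne this i
        exact ⟨j, hj, hji⟩
      obtain ⟨w, -, hw⟩ := Finset.mem_image.mp hj
      obtain ⟨e, heF, -, hecut⟩ := h (univ.filter fun u => g u = i) (Finset.subset_univ _)
        ⟨v, by simp [hv]⟩ (by
          intro hh
          have : w ∈ univ.filter fun u => g u = i := by rw [hh]; exact Finset.mem_univ _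
          rw [Finset.mem_filter] at this
          exact hij (hw ▸ this.2))
      have hne' : g (a e) ≠ g (b e) := by
        intro hh
        rw [mem_cut] at hecut
        apply hecut
        simp [hh]
      set g' : V → ι := fun u => if g u = g (b e) then g (a e) else g u with hg'
      have him : univ.image g' = (univ.image g).erase (g (b e)) := by
        ext x
        simp only [Finset.mem_image, Finset.mem_univ, true_and, Finset.mem_erase, hg']
        constructor
        · rintro ⟨u, hu⟩
          by_cases h1 : g u = g (b e)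
          · rw [if_pos h1] at hu
            subst hu
            exact ⟨hne', a e, rfl⟩
          · rw [if_neg h1] at hu
            subst hu
            exact ⟨h1, u, rfl⟩
        · rintro ⟨h1, u, rfl⟩
          exact ⟨u, if_neg h1⟩
      have hcard : (univ.image g').card = n := by
        rw [him, Finset.card_erase_of_mem (Finset.mem_image_of_mem _ (Finset.mem_univ _)), hg]
        rfl
      have h2 := ih g' hcard
      have h3 : crs a b F g' ⊆ (crs a b F g).erase e := by
        intro f hf
        simp only [crs, Finset.mem_filter, hg'] at hf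
        rw [Finset.mem_erase]
        constructor
        · rintro rfl
          apply hf.2
          simp [hne']
        · simp only [crs, Finset.mem_filter]
          refine ⟨hf.1, fun hh => hf.2 ?_⟩
          rw [hh]
      have h4 : e ∈ crs a b F g := by
        simp only [crs, Finset.mem_filter]
        exact ⟨heF, hne'⟩
      have h5 := Finset.card_le_card h3
      rw [Finset.card_erase_of_mem h4] at h5
      have h6 : 0 < (crs a b F g).card := Finset.card_pos.mpr ⟨e, h4⟩
      omega

/-- Double counting of the edges between colours. -/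
theorem two_crs_le {ι : Type*} [DecidableEq ι] (R : Finset E) (g : V → ι) :
    2 * (crs a b R g).card ≤
      ∑ i ∈ univ.image g, (R ∩ cut a b (univ.filter fun u => g u = i)).card := by
  have h1 : ∀ i ∈ univ.image g, (R ∩ cut a b (univ.filter fun u => g u = i)).card =
      ∑ e ∈ R, if ¬ (g (a e) = i ↔ g (b e) = i) then 1 else 0 := by
    intro i _
    rw [card_inter_cut]
    apply Finset.sum_congr rfl
    intro e _
    simp
  rw [Finset.sum_congr rfl h1, Finset.sum_comm]
  have h2 : 2 * (crs a b R g).card = ∑ e ∈ R, if g (a e) ≠ g (b e) then 2 else 0 := by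
    rw [← Finset.sum_filter, Finset.sum_const, smul_eq_mul, mul_comm]
    rfl
  rw [h2]
  apply Finset.sum_le_sum
  intro e _
  by_cases h : g (a e) = g (b e)
  · simp [h]
  · rw [if_pos h, ← Finset.card_filter]
    have h3 : ({g (a e), g (b e)} : Finset ι) ⊆
        (univ.image g).filter fun i => ¬ (g (a e) = i ↔ g (b e) = i) := by
      intro i hi
      rw [Finset.mem_insert, Finset.mem_singleton] at hi
      rw [Finset.mem_filter]
      rcases hi with rfl | rfl
      · refine ⟨Finset.mem_image_of_mem _ (Finset.mem_univ _), ?_⟩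
        simpa using fun hh => h hh.symm
      · refine ⟨Finset.mem_image_of_mem _ (Finset.mem_univ _), ?_⟩
        simpa using h
    have h4 := Finset.card_le_card h3
    rwa [Finset.card_pair h] at h4

/-- `U` is a union of colour classes. -/
def IsU {ι : Type*} (g : V → ι) (U : Finset V) : Prop := ∀ v w, g v = g w → v ∈ U → w ∈ U

/-- The state of the refinement. -/
def Good (R : Finset E) (lam e i : ℕ) (g : V → ℕ) : Prop :=
  i + 1 ≤ (univ.image g).card ∧
    ∀ v, (R ∩ cut a b (univ.filter fun w => g w = g v)).card ≤ lam + i * e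

theorem Good.card_le {R : Finset E} {lam e i M c : ℕ} {g : V → ℕ} (hG : Good a b R lam e i g)
    (hi : i ≤ M) (T : Fin c → Finset E) (hT : ∀ j, T j ⊆ R)
    (hd : ∀ j j', j ≠ j' → Disjoint (T j) (T j')) (hc : ∀ j, ConnOn a b (T j) univ)
    (hM : (M + 1) * (lam + M * e) < 2 * c * M) : (univ.image g).card ≤ M := by
  set p := (univ.image g).card with hp
  have h1 : ∀ j, p ≤ (crs a b (T j) g).card + 1 := fun j => conn_crs a b (hc j) p g hp.symm
  have h2 : ∑ j : Fin c, (crs a b (T j) g).card ≤ (crs a b R g).card := by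
    rw [← Finset.card_biUnion]
    · apply Finset.card_le_card
      intro e he
      rw [Finset.mem_biUnion] at he
      obtain ⟨j, -, hj⟩ := he
      simp only [crs, Finset.mem_filter] at hj ⊢
      exact ⟨hT j hj.1, hj.2⟩
    · intro j _ j' _ hjj
      exact Finset.disjoint_of_subset_left (Finset.filter_subset _ _)
        (Finset.disjoint_of_subset_right (Finset.filter_subset _ _) (hd j j' hjj))
  have h3 : c * p ≤ (crs a b R g).card + c := by
    have : ∑ j : Fin c, p ≤ ∑ j : Fin c, ((crs a b (T j) g).card + 1) :=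
      Finset.sum_le_sum fun j _ => h1 j
    rw [Finset.sum_add_distrib] at this
    simp only [Finset.sum_const, Finset.card_univ, Fintype.card_fin, smul_eq_mul, mul_one] at this
    omega
  have h4 := two_crs_le a b R g
  have h5 : ∑ i ∈ univ.image g, (R ∩ cut a b (univ.filter fun u => g u = i)).card ≤
      p * (lam + M * e) := by
    have : ∀ k ∈ univ.image g, (R ∩ cut a b (univ.filter fun u => g u = k)).card ≤
        lam + M * e := by
      intro k hk
      obtain ⟨v, -, rfl⟩ := Finset.mem_image.mp hk
      exact (hG.2 v).trans (Nat.add_le_add_left (Nat.mul_le_mul_right e hi) _)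
    have h6 := Finset.sum_le_card_nsmul _ _ _ this
    rwa [smul_eq_mul] at h6
  by_contra hcon
  push Not at hcon
  obtain ⟨x, hx⟩ : ∃ x, p = M + 1 + x := ⟨p - (M + 1), by omega⟩
  set y := lam + M * e with hy
  have h7 : y < 2 * c := by
    by_contra h8
    push Not at h8
    have : 2 * c * M ≤ (M + 1) * y := by nlinarith
    omega
  have h8 : 2 * (c * p) ≤ p * y + 2 * c := by omega
  rw [hx] at h8
  have h9 : x * y ≤ x * (2 * c) := Nat.mul_le_mul_left x h7.le
  have h10 : 2 * (c * (M + 1 + x)) = 2 * c * M + 2 * c + x * (2 * c) := by ring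
  have h11 : (M + 1 + x) * y = (M + 1) * y + x * y := by ring
  omega

/-- One refinement. -/
theorem Good.step {R : Finset E} {lam e i : ℕ} {g : V → ℕ} (hG : Good a b R lam e i g) {r : V}
    (hlam : ∀ Z : Finset V, Z.Nonempty → Z ≠ univ → lam ≤ (R ∩ cut a b Z).card)
    {U Z : Finset V} (hU : IsU g U) (hrU : r ∉ U) (hrZ : r ∉ Z)
    (h1 : (U ∩ Z).Nonempty) (h2 : (U \ Z).Nonempty) (h3 : (Z \ U).Nonempty)
    (hZ : (R ∩ cut a b Z).card ≤ lam + e) (hn : ¬ IsU g Z) :
    Good a b R lam e (i + 1) (fun v => 2 * g v + if v ∈ Z then 1 else 0) := by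
  set g' : V → ℕ := fun v => 2 * g v + if v ∈ Z then 1 else 0 with hg'
  constructor
  · unfold IsU at hn
    push Not at hn
    obtain ⟨v, w, hvw, hv, hw⟩ := hn
    have hsub : univ.image g ⊆ ((univ.image g').erase (g' w)).image (fun n => n / 2) := by
      intro x hx
      obtain ⟨u, -, rfl⟩ := Finset.mem_image.mp hx
      rw [Finset.mem_image]
      by_cases hu : g' u = g' w
      · refine ⟨g' v, Finset.mem_erase.mpr ⟨?_, Finset.mem_image_of_mem _ (Finset.mem_univ _)⟩, ?_⟩
        · simp only [hg', hv, hw, if_true, if_false]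
          omega
        · simp only [hg', hv, hw, if_true, if_false] at hu ⊢
          split_ifs at hu <;> omega
      · refine ⟨g' u, Finset.mem_erase.mpr ⟨hu, Finset.mem_image_of_mem _ (Finset.mem_univ _)⟩, ?_⟩
        simp only [hg']
        split_ifs <;> omega
    have h4 := (Finset.card_le_card hsub).trans Finset.card_image_le
    rw [Finset.card_erase_of_mem (Finset.mem_image_of_mem _ (Finset.mem_univ _))] at h4
    have h5 := hG.1
    omega
  · intro v
    set A := univ.filter fun w => g w = g v with hA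
    have hdA : (R ∩ cut a b A).card ≤ lam + i * e := hG.2 v
    have hAU : A ⊆ U ∨ Disjoint A U := by
      by_cases hv : v ∈ U
      · left
        intro w hw
        rw [hA, Finset.mem_filter] at hw
        exact hU v w hw.2.symm hv
      · right
        rw [Finset.disjoint_left]
        intro w hw hwU
        rw [hA, Finset.mem_filter] at hw
        exact hv (hU w v hw.2 hwU)
    obtain ⟨x1, hx1⟩ := h1
    obtain ⟨x2, hx2⟩ := h2
    obtain ⟨x3, hx3⟩ := h3
    rw [Finset.mem_inter] at hx1
    rw [Finset.mem_sdiff] at hx2 hx3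
    by_cases hv : v ∈ Z
    · have hfib : (univ.filter fun w => g' w = g' v) = A ∩ Z := by
        ext w
        simp only [Finset.mem_filter, Finset.mem_univ, true_and, Finset.mem_inter, hA, hg', hv,
          if_true]
        constructor
        · intro h
          split_ifs at h with hw
          · exact ⟨by omega, hw⟩
          · omega
        · rintro ⟨h, hw⟩
          rw [if_pos hw, h]
      rw [hfib]
      have hs := submod a b R A Z
      have hpr : lam ≤ (R ∩ cut a b (A ∪ Z)).card := by
        apply hlam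
        · exact ⟨v, Finset.mem_union_right _ hv⟩
        · intro hh
          rcases hAU with h | h
          · have : r ∈ A ∪ Z := by rw [hh]; exact Finset.mem_univ _
            rcases Finset.mem_union.mp this with h5 | h5
            · exact hrU (h h5)
            · exact hrZ h5
          · have : x2 ∈ A ∪ Z := by rw [hh]; exact Finset.mem_univ _
            rcases Finset.mem_union.mp this with h5 | h5
            · exact Finset.disjoint_left.mp h h5 hx2.1
            · exact hx2.2 h5
      have : (i + 1) * e = i * e + e := by ring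
      omega
    · have hfib : (univ.filter fun w => g' w = g' v) = A \ Z := by
        ext w
        simp only [Finset.mem_filter, Finset.mem_univ, true_and, Finset.mem_sdiff, hA, hg', hv,
          if_false]
        constructor
        · intro h
          split_ifs at h with hw
          · omega
          · exact ⟨by omega, hw⟩
        · rintro ⟨h, hw⟩
          rw [if_neg hw, h]
      rw [hfib]
      have hs := posimod a b R A Z
      have hpr : lam ≤ (R ∩ cut a b (Z \ A)).card := by
        apply hlam
        · rcases hAU with h | h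
          · exact ⟨x3, Finset.mem_sdiff.mpr ⟨hx3.1, fun h5 => hx3.2 (h h5)⟩⟩
          · exact ⟨x1, Finset.mem_sdiff.mpr ⟨hx1.2, fun h5 =>
              Finset.disjoint_left.mp h h5 hx1.1⟩⟩
        · intro hh
          have : r ∈ Z \ A := by rw [hh]; exact Finset.mem_univ _
          exact hrZ (Finset.mem_sdiff.mp this).1
      have : (i + 1) * e = i * e + e := by ring
      omega

/-- The crossing relation. -/
def Crosses (Y Z : Finset V) : Prop := (Y ∩ Z).Nonempty ∧ (Y \ Z).Nonempty ∧ (Z \ Y).Nonempty

/-- **A component of the crossing graph has few atoms.** -/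
theorem exists_atoms {R : Finset E} {lam e M c : ℕ} (r : V) (T : Fin c → Finset E)
    (hT : ∀ j, T j ⊆ R) (hd : ∀ j j', j ≠ j' → Disjoint (T j) (T j'))
    (hc : ∀ j, ConnOn a b (T j) univ)
    (hM : (M + 1) * (lam + M * e) < 2 * c * M)
    (hlam : ∀ Z : Finset V, Z.Nonempty → Z ≠ univ → lam ≤ (R ∩ cut a b Z).card)
    {L : Finset (Finset V)} (hL : ∀ Y ∈ L, Y.Nonempty ∧ r ∉ Y ∧ (R ∩ cut a b Y).card ≤ lam + e)
    {Y0 : Finset V} (hY0 : Y0 ∈ L) :
    ∃ g : V → Fin M, IsU g Y0 ∧ ∀ U ∈ L, ∀ Z ∈ L, Crosses U Z → IsU g U → IsU g Z := by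
  classical
  have hM0 : 1 ≤ M := by
    by_contra h
    have : M = 0 := by omega
    subst this
    simp at hM
  have hP1 : ∃ g : V → ℕ, Good a b R lam e 1 g ∧ IsU g Y0 := by
    obtain ⟨hne, hr, hcut⟩ := hL Y0 hY0
    obtain ⟨v0, hv0⟩ := hne
    refine ⟨fun v => if v ∈ Y0 then 1 else 0, ⟨?_, ?_⟩, ?_⟩
    · have : ({1, 0} : Finset ℕ) ⊆ univ.image (fun v => if v ∈ Y0 then 1 else 0) := by
        intro x hx
        rw [Finset.mem_insert, Finset.mem_singleton] at hx
        rw [Finset.mem_image]
        rcases hx with rfl | rfl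
        · exact ⟨v0, Finset.mem_univ _, if_pos hv0⟩
        · exact ⟨r, Finset.mem_univ _, if_neg hr⟩
      have h2 := Finset.card_le_card this
      simpa using h2
    · intro v
      by_cases hv : v ∈ Y0
      · have : (univ.filter fun w => (if w ∈ Y0 then 1 else 0) = (if v ∈ Y0 then 1 else 0)) =
            Y0 := by
          ext w
          simp only [Finset.mem_filter, Finset.mem_univ, true_and, hv, if_true]
          split_ifs with h <;> simp [h]
        rw [this]
        omega
      · have : (univ.filter fun w => (if w ∈ Y0 then 1 else 0) = (if v ∈ Y0 then 1 else 0)) =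
            Y0ᶜ := by
          ext w
          simp only [Finset.mem_filter, Finset.mem_univ, true_and, hv, if_false,
            Finset.mem_compl]
          split_ifs with h <;> simp [h]
        rw [this]
        have hcc : cut a b Y0ᶜ = cut a b Y0 := by
          ext x
          simp only [mem_cut, Finset.mem_compl]
          tauto
        rw [hcc]
        omega
    · intro v w hvw hv
      by_contra hw
      simp only [hv, hw, if_true, if_false] at hvw
      omega
  have hPM : ¬ ∃ g : V → ℕ, Good a b R lam e M g ∧ IsU g Y0 := by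
    rintro ⟨g, hg, -⟩
    have h1 := hg.card_le a b le_rfl T hT hd hc hM
    have h2 := hg.1
    omega
  obtain ⟨i, hiM, ⟨g, hg, hgY⟩, hnot⟩ : ∃ i < M, (∃ g : V → ℕ, Good a b R lam e i g ∧ IsU g Y0) ∧
      ¬ ∃ g : V → ℕ, Good a b R lam e (i + 1) g ∧ IsU g Y0 := by
    by_contra hcon
    push Not at hcon
    have : ∀ n, 1 ≤ n → n ≤ M → ∃ g : V → ℕ, Good a b R lam e n g ∧ IsU g Y0 := by
      intro n hn
      induction n, hn using Nat.le_induction with
      | base => intro _; exact hP1
      | succ n hn ih =>
        intro hnM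
        obtain ⟨g, hg, hgY⟩ := ih (by omega)
        exact hcon n (by omega) ⟨g, hg, hgY⟩
    exact hPM (this M hM0 le_rfl)
  have hcard : (univ.image g).card ≤ M := hg.card_le a b hiM.le T hT hd hc hM
  -- relabel
  let φ : V → Fin M := fun v => Fin.castLE hcard
    ((univ.image g).equivFin ⟨g v, Finset.mem_image_of_mem _ (Finset.mem_univ _)⟩)
  have hφ : ∀ v w, φ v = φ w ↔ g v = g w := by
    intro v w
    constructor
    · intro h
      have h1 := Fin.castLE_injective hcard h
      have h2 := (univ.image g).equivFin.injective h1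
      exact congrArg Subtype.val h2
    · intro h
      simp only [φ, h]
  have hIs : ∀ U, IsU φ U ↔ IsU g U := by
    intro U
    constructor
    · intro h v w hvw hv
      exact h v w ((hφ v w).mpr hvw) hv
    · intro h v w hvw hv
      exact h v w ((hφ v w).mp hvw) hv
  refine ⟨φ, (hIs _).mpr hgY, ?_⟩
  intro U hU Z hZ hcr hUg
  rw [hIs] at hUg ⊢
  by_contra hn
  apply hnot
  refine ⟨_, hg.step a b hlam hUg (hL U hU).2.1 (hL Z hZ).2.1 hcr.1 hcr.2.1 hcr.2.2
    (hL Z hZ).2.2 hn, ?_⟩
  intro v w hvw hv
  apply hgY v w _ hv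
  simp only at hvw
  split_ifs at hvw <;> omega

/-- **Near-minimum cuts with many classes: `2 ^ M` laminar families.** -/
theorem exists_col {R : Finset E} {lam e M c : ℕ} (r : V) (T : Fin c → Finset E)
    (hT : ∀ j, T j ⊆ R) (hd : ∀ j j', j ≠ j' → Disjoint (T j) (T j'))
    (hc : ∀ j, ConnOn a b (T j) univ)
    (hM : (M + 1) * (lam + M * e) < 2 * c * M)
    (hlam : ∀ Z : Finset V, Z.Nonempty → Z ≠ univ → lam ≤ (R ∩ cut a b Z).card)
    (L : Finset (Finset V)) (hL : ∀ Y ∈ L, Y.Nonempty ∧ r ∉ Y ∧ (R ∩ cut a b Y).card ≤ lam + e) :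
    ∃ col : Finset V → Finset (Fin M), ∀ Y ∈ L, ∀ Z ∈ L, col Y = col Z →
      Y ⊆ Z ∨ Z ⊆ Y ∨ Disjoint Y Z := by
  classical
  let rel : {Y // Y ∈ L} → {Y // Y ∈ L} → Prop := fun Y Z => Crosses Y.1 Z.1
  have hex : ∀ Y0 : {Y // Y ∈ L}, ∃ g : V → Fin M, ∀ Z : {Y // Y ∈ L},
      Relation.EqvGen rel Y0 Z → IsU g Z.1 := by
    intro Y0
    obtain ⟨g, hg0, hg⟩ := exists_atoms a b r T hT hd hc hM hlam hL Y0.2
    refine ⟨g, fun Z hZ => ?_⟩
    have key : ∀ Y Z : {Y // Y ∈ L}, Relation.EqvGen rel Y Z → (IsU g Y.1 ↔ IsU g Z.1) := by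
      intro Y Z h
      induction h with
      | rel Y Z h =>
        refine ⟨hg Y.1 Y.2 Z.1 Z.2 h, hg Z.1 Z.2 Y.1 Y.2 ?_⟩
        obtain ⟨h1, h2, h3⟩ := h
        exact ⟨by rwa [Finset.inter_comm], h3, h2⟩
      | refl Y => exact Iff.rfl
      | symm Y Z _ ih => exact ih.symm
      | trans Y Z W _ _ ih1 ih2 => exact ih1.trans ih2
    exact (key Y0 Z hZ).mp hg0
  choose g hg using hex
  let rep : {Y // Y ∈ L} → {Y // Y ∈ L} := fun Y => (Quot.mk rel Y).out
  have hrep : ∀ Y, IsU (g (rep Y)) Y.1 := by
    intro Y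
    apply hg
    apply Quot.eqvGen_exact
    exact Quot.out_eq _
  refine ⟨fun Y => if h : Y ∈ L then Y.image (g (rep ⟨Y, h⟩)) else ∅, ?_⟩
  intro Y hY Z hZ hcol
  by_contra hcon
  push Not at hcon
  obtain ⟨h1, h2, h3⟩ := hcon
  have hcr : rel ⟨Y, hY⟩ ⟨Z, hZ⟩ := by
    refine ⟨?_, ?_, ?_⟩
    · rw [Finset.not_disjoint_iff] at h3
      obtain ⟨x, hx, hx'⟩ := h3
      exact ⟨x, Finset.mem_inter.mpr ⟨hx, hx'⟩⟩
    · rw [Finset.not_subset] at h1
      obtain ⟨x, hx, hx'⟩ := h1
      exact ⟨x, Finset.mem_sdiff.mpr ⟨hx, hx'⟩⟩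
    · rw [Finset.not_subset] at h2
      obtain ⟨x, hx, hx'⟩ := h2
      exact ⟨x, Finset.mem_sdiff.mpr ⟨hx, hx'⟩⟩
  have hreq : rep ⟨Y, hY⟩ = rep ⟨Z, hZ⟩ := by
    simp only [rep]
    rw [Quot.sound hcr]
  simp only [dif_pos hY, dif_pos hZ] at hcol
  have hYU := hrep ⟨Y, hY⟩
  have hZU := hrep ⟨Z, hZ⟩
  rw [hreq] at hcol hYU
  apply h1
  intro v hv
  have h5 : g (rep ⟨Z, hZ⟩) v ∈ Z.image (g (rep ⟨Z, hZ⟩)) := by
    rw [← hcol]
    exact Finset.mem_image_of_mem _ hv
  obtain ⟨w, hw, hwv⟩ := Finset.mem_image.mp h5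
  exact hZU w v hwv hw

end

end Pool.Agent.Lib.MP_21a058_co.Near
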